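import Pool.Agent.Q99.FAL.Stm3
import Pool.Agent.W719.BS.LLp
import Pool.Agent.W719.BS.V1

/-!
# FAL-NB: Gaussian bound of the terms (helper280)
-/

set_option autoImplicit false

namespace Pool.Agent.Q280.FAL

open Finset Filter Topology MeasureTheory
open Pool.Agent.Q191.TW (cs)
open Pool.Agent.W719.BS (D LL)
open Pool.Agent.Q99.FAL

/-! ### `q`-binomial coefficients -/

lemma D_pos {N m : ℕ} (h : m < N) : 0 < D N m := by
  unfold D
  refine Finset.prod_pos fun j hj => ?_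
  rw [Finset.mem_range] at hj
  have hN : (0 : ℝ) < N := by exact_mod_cast (by omega : 0 < N)
  have h1 : (j : ℝ) + 1 < N := by exact_mod_cast (by omega : j + 1 < N)
  refine mul_pos two_pos (Real.sin_pos_of_pos_of_lt_pi (by positivity) ?_)
  rw [div_lt_iff₀ hN]
  exact mul_lt_mul_of_pos_left h1 Real.pi_pos

lemma D_zero (N : ℕ) : D N 0 = 1 := by simp [D]

lemma bq_nonneg {N : ℕ} (hN : 1 ≤ N) (n k : ℤ) : 0 ≤ bq N n k := by
  unfold bq Pool.Agent.Q99.FW.TZ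
  split_ifs with h
  · unfold Pool.Agent.Q99.FW.Tri
    have h1 : 0 < D N k.toNat := D_pos (by omega)
    have h2 : 0 < D N (n - k).toNat := D_pos (by omega)
    have h3 : 0 < D N ((N : ℤ) - 1 - n).toNat := D_pos (by omega)
    positivity
  · exact le_rfl

lemma bq_left {N : ℕ} {n : ℤ} (h0 : 0 ≤ n) (h1 : n ≤ N - 1) : bq N n 0 = 1 := by
  unfold bq Pool.Agent.Q99.FW.TZ
  rw [if_pos ⟨le_rfl, by omega, by omega⟩]
  unfold Pool.Agent.Q99.FW.Tri
  have hN : 0 < N := by omega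
  have h2 := Pool.Agent.W719.BS.D_refl N (n - 0).toNat ((N : ℤ) - 1 - n).toNat (by omega)
  have h3 : (0 : ℤ).toNat = 0 := rfl
  rw [h3, D_zero, one_mul, h2]
  have : (N : ℝ) ≠ 0 := by exact_mod_cast hN.ne'
  field_simp

lemma bq_right {N : ℕ} {n : ℤ} (h0 : 0 ≤ n) (h1 : n ≤ N - 1) : bq N n n = 1 := by
  unfold bq Pool.Agent.Q99.FW.TZ
  rw [if_pos ⟨h0, by omega, by omega⟩]
  unfold Pool.Agent.Q99.FW.Tri
  have hN : 0 < N := by omega
  have h2 := Pool.Agent.W719.BS.D_refl N n.toNat ((N : ℤ) - 1 - n).toNat (by omega)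
  have h3 : (n - n).toNat = 0 := by simp
  rw [h3, D_zero, mul_one, h2]
  have : (N : ℝ) ≠ 0 := by exact_mod_cast hN.ne'
  field_simp

lemma bq_left_le {N : ℕ} (n : ℤ) : bq N n 0 ≤ 1 := by
  by_cases h : 0 ≤ n ∧ n ≤ N - 1
  · exact (bq_left h.1 h.2).le
  · unfold bq Pool.Agent.Q99.FW.TZ
    rw [if_neg (by omega)]
    exact zero_le_one

lemma bq_right_le {N : ℕ} (n : ℤ) : bq N n n ≤ 1 := by
  by_cases h : 0 ≤ n ∧ n ≤ N - 1
  · exact (bq_right h.1 h.2).le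
  · unfold bq Pool.Agent.Q99.FW.TZ
    rw [if_neg (by omega)]
    exact zero_le_one

/-! ### one angle -/

/-- the logarithm of the tangent -/
noncomputable def lt (α : ℝ) : ℝ := Real.log (Real.tan (Real.pi * α))

/-- the logarithm of the cosine -/
noncomputable def lc (α : ℝ) : ℝ := Real.log (Real.cos (Real.pi * α))

lemma lt_zero : lt 0 = 0 := by simp [lt]
lemma lc_zero : lc 0 = 0 := by simp [lc]
lemma lt_half : lt (1 / 2) = 0 := by
  unfold lt
  rw [show Real.pi * (1 / 2) = Real.pi / 2 by ring, Real.tan_pi_div_two, Real.log_zero]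
lemma lc_half : lc (1 / 2) = 0 := by
  unfold lc
  rw [show Real.pi * (1 / 2) = Real.pi / 2 by ring, Real.cos_pi_div_two, Real.log_zero]

lemma LL_zero : LL 0 = 0 := by simp [LL]

lemma hh_zero : hh 0 = 0 := by
  unfold hh
  rw [sub_zero, LL_zero, Pool.Agent.W719.BS.LL_half]
  simp

lemma hh_half : hh (1 / 2) = 0 := by
  unfold hh
  rw [sub_self, LL_zero, Pool.Agent.W719.BS.LL_half]
  simp

open Classical in
lemma one_angle (h1 : S_T1) {α : ℝ} (h0 : 0 ≤ α) (h2 : α ≤ 1 / 2) : ∃ C κ : ℝ, 0 ≤ C ∧ 0 < κ ∧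
    ∀ (N : ℕ) (n k : ℤ), 1 ≤ N → (α = 0 → k = 0) → (α = 1 / 2 → k = n) →
    (if α ≠ 0 ∧ α ≠ 1 / 2 then √(N : ℝ) else 1) * bq N n k ≤ C * Real.exp (N * hh α -
      (lt α * (k - N * α) + lc α * (n - N / 2)) -
      κ * (if α ≠ 0 ∧ α ≠ 1 / 2 then ((k : ℝ) - N * α) ^ 2 + ((n : ℝ) - N / 2) ^ 2 else 0) / N) := by
  by_cases hg : α ≠ 0 ∧ α ≠ 1 / 2
  · obtain ⟨C, κ, hC, hκ, h3⟩ := h1 α (lt_of_le_of_ne h0 (Ne.symm hg.1)) (lt_of_le_of_ne h2 hg.2)
    refine ⟨C, κ, hC, hκ, fun N n k hN _ _ => ?_⟩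
    rw [if_pos hg, if_pos hg]
    refine (h3 N n k hN).trans (le_of_eq ?_)
    unfold lt lc
    congr 2
    ring
  · refine ⟨1, 1, zero_le_one, one_pos, fun N n k hN hk hk' => ?_⟩
    rw [if_neg hg, if_neg hg, one_mul, one_mul, mul_zero, zero_div, sub_zero]
    rcases not_and_or.1 hg with h | h
    · rw [not_not] at h
      rw [hk h, h, lt_zero, lc_zero, hh_zero]
      simpa using bq_left_le n
    · rw [not_not] at h
      rw [hk' h, h, lt_half, lc_half, hh_half]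
      simpa using bq_right_le n

/-! ### belts -/

lemma dn_cast (x : Fin 6 → ℤ) (i : Fin 6) : ((dn x i : ℤ) : ℝ) = dn (fun j => (x j : ℝ)) i := by
  unfold dn n1 n2
  split_ifs <;> push_cast <;> ring

lemma dn_lin (x y : Fin 6 → ℝ) (s t : ℝ) (i : Fin 6) :
    dn (fun j => s * x j + t * y j) i = s * dn x i + t * dn y i := by
  unfold dn n1 n2
  split_ifs <;> ring

/-- geometry of the angles of a belt -/
lemma belt_gen {a : Fin 6 → ℝ} (h0 : ∀ i, 0 ≤ a i) (h1 : n1 a = 1 / 2) (h2 : n2 a = 1 / 2)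
    (s1 : a 1 = 0 ↔ a 4 = 0) (s2 : a 2 = 0 ↔ a 5 = 0) (s3 : ¬ (a 1 = 0 ∧ a 2 = 0))
    (s4 : ¬ (a 0 = 0 ∧ a 3 = 0 ∧ (a 1 = 0 ∨ a 2 = 0))) {i : Fin 6} (hi : a i = 1 / 2) :
    (i ≠ 0 ∧ i ≠ 3) ∧ ((a 0 ≠ 0 ∧ a 0 ≠ 1 / 2) ∨ (a 3 ≠ 0 ∧ a 3 ≠ 1 / 2)) := by
  have e0 := h0 0
  have e1 := h0 1
  have e2 := h0 2
  have e3 := h0 3
  have e4 := h0 4
  have e5 := h0 5
  unfold n1 at h1
  unfold n2 at h2
  have k0 : i ≠ 0 := by
    rintro rfl
    exact s3 ⟨by linarith, by linarith⟩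
  have k3 : i ≠ 3 := by
    rintro rfl
    exact s3 ⟨s1.2 (by linarith), s2.2 (by linarith)⟩
  refine ⟨⟨k0, k3⟩, ?_⟩
  fin_cases i
  · exact absurd rfl k0
  · right
    have hi : a 1 = 1 / 2 := hi
    have f0 : a 0 = 0 := by linarith
    have f2 : a 2 = 0 := by linarith
    have f3 : a 3 ≠ 0 := fun h => s4 ⟨f0, h, Or.inr f2⟩
    have f4 : a 4 ≠ 0 := fun h => by
      have := s1.2 h
      rw [hi] at this
      norm_num at this
    refine ⟨f3, fun h => f4 (by linarith)⟩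
  · right
    have hi : a 2 = 1 / 2 := hi
    have f0 : a 0 = 0 := by linarith
    have f1 : a 1 = 0 := by linarith
    have f3 : a 3 ≠ 0 := fun h => s4 ⟨f0, h, Or.inl f1⟩
    have f5 : a 5 ≠ 0 := fun h => by
      have := s2.2 h
      rw [hi] at this
      norm_num at this
    refine ⟨f3, fun h => f5 (by linarith)⟩
  · exact absurd rfl k3
  · left
    have hi : a 4 = 1 / 2 := hi
    have f3 : a 3 = 0 := by linarith
    have f5 : a 5 = 0 := by linarith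
    have f2 := s2.2 f5
    have f0 : a 0 ≠ 0 := fun h => s4 ⟨h, f3, Or.inr f2⟩
    have f1 : a 1 ≠ 0 := fun h => s3 ⟨h, f2⟩
    refine ⟨f0, fun h => f1 (by linarith)⟩
  · left
    have hi : a 5 = 1 / 2 := hi
    have f3 : a 3 = 0 := by linarith
    have f4 : a 4 = 0 := by linarith
    have f1 := s1.2 f4
    have f0 : a 0 ≠ 0 := fun h => s4 ⟨h, f3, Or.inl f1⟩
    have f2 : a 2 ≠ 0 := fun h => s3 ⟨f1, h⟩
    refine ⟨f0, fun h => f2 (by linarith)⟩

/-- the angle `1/2` -/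
lemma belt_half {a : Fin 6 → ℝ} {a' : Fin 6 → ℤ} (h0 : ∀ i, 0 ≤ a i) (h1 : n1 a = 1 / 2)
    (h2 : n2 a = 1 / 2) {i : Fin 6} (hi : a i = 1 / 2) (hne : i ≠ 0 ∧ i ≠ 3)
    (hz : ∀ i, a i = 0 → a' i = 0) : a' i = dn a' i := by
  have e0 := h0 0
  have e1 := h0 1
  have e2 := h0 2
  have e3 := h0 3
  have e4 := h0 4
  have e5 := h0 5
  unfold n1 at h1
  unfold n2 at h2
  fin_cases i
  · exact absurd rfl hne.1
  · have hi : a 1 = 1 / 2 := hi
    have f0 := hz 0 (by linarith)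
    have f2 := hz 2 (by linarith)
    show a' 1 = a' 0 + a' 1 + a' 2
    rw [f0, f2]; ring
  · have hi : a 2 = 1 / 2 := hi
    have f0 := hz 0 (by linarith)
    have f2 := hz 1 (by linarith)
    show a' 2 = a' 0 + a' 1 + a' 2
    rw [f0, f2]; ring
  · exact absurd rfl hne.2
  · have hi : a 4 = 1 / 2 := hi
    have f0 := hz 3 (by linarith)
    have f2 := hz 5 (by linarith)
    show a' 4 = a' 3 + a' 4 + a' 5
    rw [f0, f2]; ring
  · have hi : a 5 = 1 / 2 := hi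
    have f0 := hz 3 (by linarith)
    have f2 := hz 4 (by linarith)
    show a' 5 = a' 3 + a' 4 + a' 5
    rw [f0, f2]; ring

lemma dn_half {a : Fin 6 → ℝ} (h1 : n1 a = 1 / 2) (h2 : n2 a = 1 / 2) (i : Fin 6) :
    dn a i = 1 / 2 := by
  unfold dn
  split_ifs
  · exact h2
  · exact h1

open Classical in
/-- the quadratic part of a belt -/
lemma belt_quad {a : Fin 6 → ℝ} {a' : Fin 6 → ℤ} {N : ℕ} (h0 : ∀ i, 0 ≤ a i) (h1 : n1 a = 1 / 2)
    (h2 : n2 a = 1 / 2)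
    (s1 : a 1 = 0 ↔ a 4 = 0) (s2 : a 2 = 0 ↔ a 5 = 0) (s3 : ¬ (a 1 = 0 ∧ a 2 = 0))
    (s4 : ¬ (a 0 = 0 ∧ a 3 = 0 ∧ (a 1 = 0 ∨ a 2 = 0)))
    (hz : ∀ i, a i = 0 → a' i = 0) (hsum : n1 a' + n2 a' = (N : ℤ) - 1) (i : Fin 6) :
    ((a' i : ℝ) - N * a i) ^ 2 ≤ 2 * (∑ j, if a j ≠ 0 ∧ a j ≠ 1 / 2 then
      ((a' j : ℝ) - N * a j) ^ 2 + (((dn a' j : ℤ) : ℝ) - N / 2) ^ 2 else 0) + 2 := by
  have hterm : ∀ j, 0 ≤ (if a j ≠ 0 ∧ a j ≠ 1 / 2 then
      ((a' j : ℝ) - N * a j) ^ 2 + (((dn a' j : ℤ) : ℝ) - N / 2) ^ 2 else 0) := by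
    intro j
    split_ifs <;> positivity
  have hle : ∀ j, (if a j ≠ 0 ∧ a j ≠ 1 / 2 then
      ((a' j : ℝ) - N * a j) ^ 2 + (((dn a' j : ℤ) : ℝ) - N / 2) ^ 2 else 0) ≤
      ∑ j, if a j ≠ 0 ∧ a j ≠ 1 / 2 then
      ((a' j : ℝ) - N * a j) ^ 2 + (((dn a' j : ℤ) : ℝ) - N / 2) ^ 2 else 0 :=
    fun j => Finset.single_le_sum (f := fun j => if a j ≠ 0 ∧ a j ≠ 1 / 2 then
      ((a' j : ℝ) - N * a j) ^ 2 + (((dn a' j : ℤ) : ℝ) - N / 2) ^ 2 else 0)
      (fun j _ => hterm j) (Finset.mem_univ j)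
  by_cases hi0 : a i = 0
  · rw [hz i hi0, hi0]
    have := (hterm i).trans (hle i)
    simp only [Int.cast_zero, mul_zero, sub_zero]
    nlinarith
  by_cases hih : a i = 1 / 2
  · obtain ⟨hne, hg⟩ := belt_gen h0 h1 h2 s1 s2 s3 s4 hih
    have e1 := belt_half (a' := a') h0 h1 h2 hih hne hz
    have hs : ((n1 a' : ℤ) : ℝ) + ((n2 a' : ℤ) : ℝ) = N - 1 := by
      exact_mod_cast hsum
    have key : ∀ m : ℝ, (m = ((n1 a' : ℤ) : ℝ) ∨ m = ((n2 a' : ℤ) : ℝ)) →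
        (((n1 a' : ℤ) : ℝ) - N / 2) ^ 2 ≤ 2 * (m - N / 2) ^ 2 + 2 ∧
        (((n2 a' : ℤ) : ℝ) - N / 2) ^ 2 ≤ 2 * (m - N / 2) ^ 2 + 2 := by
      intro m hm
      rcases hm with rfl | rfl
      · constructor
        · nlinarith [sq_nonneg (((n1 a' : ℤ) : ℝ) - N / 2)]
        · have : ((n2 a' : ℤ) : ℝ) - N / 2 = -(((n1 a' : ℤ) : ℝ) - N / 2) - 1 := by linarith
          rw [this]
          nlinarith [sq_nonneg ((((n1 a' : ℤ) : ℝ) - N / 2) - 1)]
      · constructor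
        · have : ((n1 a' : ℤ) : ℝ) - N / 2 = -(((n2 a' : ℤ) : ℝ) - N / 2) - 1 := by linarith
          rw [this]
          nlinarith [sq_nonneg ((((n2 a' : ℤ) : ℝ) - N / 2) - 1)]
        · nlinarith [sq_nonneg (((n2 a' : ℤ) : ℝ) - N / 2)]
    have hdn : ∀ m : ℝ, (m = ((n1 a' : ℤ) : ℝ) ∨ m = ((n2 a' : ℤ) : ℝ)) →
        ((a' i : ℝ) - N * a i) ^ 2 ≤ 2 * (m - N / 2) ^ 2 + 2 := by
      intro m hm
      rw [hih, e1, show (N : ℝ) * (1 / 2) = N / 2 by ring]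
      unfold dn
      split_ifs
      · exact (key m hm).2
      · exact (key m hm).1
    rcases hg with hg | hg
    · have h3 := hle 0
      rw [if_pos hg] at h3
      have e2 : dn a' 0 = n2 a' := by unfold dn; simp
      rw [e2] at h3
      have h4 := hdn ((n2 a' : ℤ) : ℝ) (Or.inr rfl)
      have h5 := sq_nonneg ((a' 0 : ℝ) - N * a 0)
      linarith
    · have h3 := hle 3
      rw [if_pos hg] at h3
      have e2 : dn a' 3 = n1 a' := by unfold dn; simp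
      rw [e2] at h3
      have h4 := hdn ((n1 a' : ℤ) : ℝ) (Or.inl rfl)
      have h5 := sq_nonneg ((a' 3 : ℝ) - N * a 3)
      linarith
  · have h3 := hle i
    rw [if_pos ⟨hi0, hih⟩] at h3
    have h4 := sq_nonneg (((dn a' i : ℤ) : ℝ) - N / 2)
    have h5 := sq_nonneg ((a' i : ℝ) - N * a i)
    linarith

/-! ### nets -/

variable {c : ℕ}

/-- the data of the top of a net -/
structure Tp (X : Net c) (p a : Fin c → Fin 6 → ℝ) : Prop where
  nn : ∀ b i, 0 ≤ a b i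
  h1 : ∀ b, n1 (a b) = 1 / 2
  h2 : ∀ b, n2 (a b) = 1 / 2
  s1 : ∀ b, a b 1 = 0 ↔ a b 4 = 0
  s2 : ∀ b, a b 2 = 0 ↔ a b 5 = 0
  s3 : ∀ b, ¬ (a b 1 = 0 ∧ a b 2 = 0)
  s4 : ∀ b, ¬ (a b 0 = 0 ∧ a b 3 = 0 ∧ (a b 1 = 0 ∨ a b 2 = 0))
  half : ∀ b i, a b i = 1 / 2 ↔ p b i = 1 / 2
  zer : ∀ b i, a b i = 0 ↔ p b i = 0

lemma tp_of {X : Net c} {p a : Fin c → Fin 6 → ℝ} (hG : X.Good p) (hT : X.Top p a) : Tp X p a := by
  obtain ⟨hA, hz, -⟩ := hT
  obtain ⟨-, hnn, hh⟩ := hA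
  obtain ⟨-, hnnp, hhp⟩ := hG.ang
  refine ⟨hnn, fun b => (hh b).1, fun b => (hh b).2, fun b => ?_, fun b => ?_, fun b => ?_, fun b => ?_,
    fun b i => ?_, hz⟩
  · rw [hz, hz]; exact hG.s1 b
  · rw [hz, hz]; exact hG.s2 b
  · rw [hz, hz]; exact hG.s3 b
  · rw [hz, hz, hz, hz]; exact hG.s4 b
  · -- `1/2` iff the other two angles of the triangle vanish
    have key : ∀ q : Fin 6 → ℝ, (∀ i, 0 ≤ q i) → n1 q = 1 / 2 → n2 q = 1 / 2 →
        ∀ i : Fin 6, (q i = 1 / 2 ↔ ∀ j : Fin 6, j ≠ i → ((i = 0 ∨ i = 1 ∨ i = 2) ↔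
          (j = 0 ∨ j = 1 ∨ j = 2)) → q j = 0) := by
      intro q hq h1 h2 i
      have e0 := hq 0
      have e1 := hq 1
      have e2 := hq 2
      have e3 := hq 3
      have e4 := hq 4
      have e5 := hq 5
      unfold n1 at h1
      unfold n2 at h2
      constructor
      · intro h j hj hij
        clear hq hz hnn hh hnnp hhp hG
        fin_cases i <;> fin_cases j <;> simp_all <;> linarith
      · intro h
        fin_cases i
        · have f1 := h 1 (by decide) (by decide)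
          have f2 := h 2 (by decide) (by decide)
          show q 0 = 1 / 2
          linarith
        · have f1 := h 0 (by decide) (by decide)
          have f2 := h 2 (by decide) (by decide)
          show q 1 = 1 / 2
          linarith
        · have f1 := h 0 (by decide) (by decide)
          have f2 := h 1 (by decide) (by decide)
          show q 2 = 1 / 2
          linarith
        · have f1 := h 4 (by decide) (by decide)
          have f2 := h 5 (by decide) (by decide)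
          show q 3 = 1 / 2
          linarith
        · have f1 := h 3 (by decide) (by decide)
          have f2 := h 5 (by decide) (by decide)
          show q 4 = 1 / 2
          linarith
        · have f1 := h 3 (by decide) (by decide)
          have f2 := h 4 (by decide) (by decide)
          show q 5 = 1 / 2
          linarith
    rw [key (a b) (hnn b) (hh b).1 (hh b).2 i, key (p b) (hnnp b) (hhp b).1 (hhp b).2 i]
    simp only [hz]

/-- the linear parts -/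
lemma lin {X : Net c} {p a : Fin c → Fin 6 → ℝ} (hCR : S_CR) (hG : X.Good p) (hT : X.Top p a) {N : ℕ}
    {a' : Fin c → Fin 6 → ℤ} (ha' : a' - ((N : ℤ) - 1) • X.a0 ∈ X.L) :
    ∑ b, ∑ i, (lt (a b i) * ((a' b i : ℝ) - N * a b i) +
      lc (a b i) * (((dn (a' b) i : ℤ) : ℝ) - N / 2)) =
      -∑ b, ∑ i, (lt (a b i) * a b i + lc (a b i) * (1 / 2)) := by
  have hTp := tp_of hG hT
  have hA := hT.1.1
  have h1 : toR (a' - ((N : ℤ) - 1) • X.a0) ∈ X.LR := Submodule.subset_span ⟨_, ha', rfl⟩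
  have h2 : toR (a' - ((N : ℤ) - 1) • X.a0) - ((N : ℝ) - 1) • (a - toR X.a0) ∈ X.LR :=
    Submodule.sub_mem _ h1 (Submodule.smul_mem _ _ hA)
  have h3 := hCR c X p hG a hT.1 hT.2.1 hT.2.2 _ h2
  have h4 : ∀ b i, (toR (a' - ((N : ℤ) - 1) • X.a0) - ((N : ℝ) - 1) • (a - toR X.a0)) b i =
      1 * (a' b i : ℝ) + (-((N : ℝ) - 1)) * a b i := by
    intro b i
    simp only [toR, Pi.sub_apply, Pi.smul_apply, smul_eq_mul]
    push_cast
    ring
  have h5 : ∀ b i, dn ((toR (a' - ((N : ℤ) - 1) • X.a0) - ((N : ℝ) - 1) • (a - toR X.a0)) b) i =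
      ((dn (a' b) i : ℤ) : ℝ) - ((N : ℝ) - 1) * (1 / 2) := by
    intro b i
    rw [funext (h4 b), dn_lin, dn_half (hTp.h1 b) (hTp.h2 b), dn_cast]
    ring
  rw [← Finset.sum_neg_distrib, ← sub_eq_zero, ← Finset.sum_sub_distrib, ← h3]
  refine Finset.sum_congr rfl fun b _ => ?_
  rw [← Finset.sum_neg_distrib, ← Finset.sum_sub_distrib]
  refine Finset.sum_congr rfl fun i _ => ?_
  rw [h4, h5]
  unfold lt lc
  ring

/-- the angles which vanish -/
lemma zer_of {X : Net c} {p a : Fin c → Fin 6 → ℝ} (hG : X.Good p) (hT : X.Top p a) {N : ℕ}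
    {a' : Fin c → Fin 6 → ℤ} (ha' : a' - ((N : ℤ) - 1) • X.a0 ∈ X.L) (b : Fin c) (i : Fin 6)
    (h : a b i = 0) : a' b i = 0 := by
  have hp := ((tp_of hG hT).zer b i).1 h
  have h1 := hG.zero _ ha' b i hp
  have h2 := hG.zero0 b i hp
  simp only [Pi.sub_apply, Pi.smul_apply, smul_eq_mul, h2, mul_zero, sub_zero] at h1
  exact h1

/-- the sums -/
lemma sum_of {X : Net c} {p : Fin c → Fin 6 → ℝ} (hG : X.Good p) {N : ℕ}
    {a' : Fin c → Fin 6 → ℤ} (ha' : a' - ((N : ℤ) - 1) • X.a0 ∈ X.L) (b : Fin c) :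
    n1 (a' b) + n2 (a' b) = (N : ℤ) - 1 := by
  have h1 := hG.sum _ ha' b
  have h2 := hG.sum0 b
  unfold n1 n2 at *
  simp only [Pi.sub_apply, Pi.smul_apply, smul_eq_mul] at h1
  linear_combination h1 + ((N : ℤ) - 1) * h2

/-- the modulus of a term -/
lemma norm_tN (w : Fin c → ℝ) {N : ℕ} (hN : 1 ≤ N) (a' : Fin c → Fin 6 → ℤ) :
    ‖tN w N a'‖ = ∏ b, ∏ i, bq N (dn (a' b) i) (a' b i) := by
  unfold tN
  rw [norm_prod]
  refine Finset.prod_congr rfl fun b _ => ?_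
  unfold wt6
  rw [norm_mul]
  have h1 : ‖cs N (w b * ((n1 (a' b) - n2 (a' b) : ℤ) : ℝ) ^ 2 / 4)‖ = 1 := by
    unfold cs
    exact Complex.norm_exp_ofReal_mul_I _
  rw [h1, one_mul, Complex.norm_real, Real.norm_eq_abs, abs_of_nonneg]
  · rw [Fin.prod_univ_six]
    simp only [dn, Fin.isValue, true_or, if_true, or_true]
    rw [if_neg (by decide), if_neg (by decide), if_neg (by decide)]
    ring
  · have := fun n k => bq_nonneg hN n k
    have e1 := this (n2 (a' b)) (a' b 0)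
    have e2 := this (n1 (a' b)) (a' b 1)
    have e3 := this (n1 (a' b)) (a' b 2)
    have e4 := this (n1 (a' b)) (a' b 3)
    have e5 := this (n2 (a' b)) (a' b 4)
    have e6 := this (n2 (a' b)) (a' b 5)
    positivity

open Classical in
/-- the power of `√N` -/
lemma pow_nV {X : Net c} {p a : Fin c → Fin 6 → ℝ} (hT : Tp X p a) (r : ℝ) :
    r ^ nV p = ∏ b, ∏ i, if a b i ≠ 0 ∧ a b i ≠ 1 / 2 then r else 1 := by
  rw [← Fintype.prod_prod_type']
  rw [Finset.prod_ite, Finset.prod_const, Finset.prod_const_one, mul_one]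
  congr 1
  unfold nV
  rw [Nat.card_eq_fintype_card, Fintype.card_subtype]
  congr 1
  ext q
  simp only [Finset.mem_filter, Finset.mem_univ, true_and, ne_eq, hT.zer, hT.half]

/-- **FAL-NB** -/
theorem task_NB : S_NB := by
  classical
  intro hT1 hCR c X p a w hG hT
  have hTp := tp_of hG hT
  have hle : ∀ b i, a b i ≤ 1 / 2 := by
    intro b i
    have h1 := hTp.h1 b
    have h2 := hTp.h2 b
    unfold n1 at h1
    unfold n2 at h2
    have e := hTp.nn b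
    have e0 := e 0
    have e1 := e 1
    have e2 := e 2
    have e3 := e 3
    have e4 := e 4
    have e5 := e 5
    fin_cases i
    · show a b 0 ≤ 1 / 2
      linarith
    · show a b 1 ≤ 1 / 2
      linarith
    · show a b 2 ≤ 1 / 2
      linarith
    · show a b 3 ≤ 1 / 2
      linarith
    · show a b 4 ≤ 1 / 2
      linarith
    · show a b 5 ≤ 1 / 2
      linarith
  choose C κ hC hκ hb using fun (b : Fin c) (i : Fin 6) => one_angle hT1 (hTp.nn b i) (hle b i)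
  -- a common `κ`
  obtain ⟨κ0, hκ0, hκle⟩ : ∃ κ0 : ℝ, 0 < κ0 ∧ ∀ b i, κ0 ≤ κ b i := by
    have hs : 0 ≤ ∑ b, ∑ i, (κ b i)⁻¹ :=
      Finset.sum_nonneg fun b _ => Finset.sum_nonneg fun i _ => (inv_pos.2 (hκ b i)).le
    refine ⟨(1 + ∑ b, ∑ i, (κ b i)⁻¹)⁻¹, by positivity, fun b i => ?_⟩
    rw [inv_le_comm₀ (by positivity) (hκ b i)]
    have h1 : (κ b i)⁻¹ ≤ ∑ i, (κ b i)⁻¹ :=
      Finset.single_le_sum (f := fun i => (κ b i)⁻¹) (fun i _ => (inv_pos.2 (hκ b i)).le)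
        (Finset.mem_univ i)
    have h2 : ∑ i, (κ b i)⁻¹ ≤ ∑ b, ∑ i, (κ b i)⁻¹ :=
      Finset.single_le_sum (f := fun b => ∑ i, (κ b i)⁻¹)
        (fun b _ => Finset.sum_nonneg fun i _ => (inv_pos.2 (hκ b i)).le) (Finset.mem_univ b)
    linarith
  set ℓ : ℝ := ∑ b, ∑ i, (lt (a b i) * a b i + lc (a b i) * (1 / 2)) with hℓ
  refine ⟨(∏ b, ∏ i, C b i) * Real.exp (ℓ + κ0 * c), κ0 / 12, by positivity, fun N hN a' ha' => ?_⟩
  have hN0 : (0 : ℝ) < N := by exact_mod_cast hN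
  have hN1 : (1 : ℝ) ≤ N := by exact_mod_cast hN
  have hz := zer_of hG hT ha'
  have hsum := sum_of hG ha'
  have hCn : 0 ≤ ∏ b, ∏ i, C b i := Finset.prod_nonneg fun b _ => Finset.prod_nonneg fun i _ => hC b i
  rw [norm_mul, norm_tN w hN, Complex.norm_real, Real.norm_eq_abs, abs_of_nonneg (by positivity),
    pow_nV hTp, mul_right_comm, ← Finset.prod_mul_distrib]
  set Q : ℝ := ∑ b, ∑ i, (if a b i ≠ 0 ∧ a b i ≠ 1 / 2 then
      ((a' b i : ℝ) - N * a b i) ^ 2 + (((dn (a' b) i : ℤ) : ℝ) - N / 2) ^ 2 else 0) with hQ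
  have hprod : ∏ b, ((∏ i, if a b i ≠ 0 ∧ a b i ≠ 1 / 2 then √(N : ℝ) else 1) *
      ∏ i, bq N (dn (a' b) i) (a' b i)) ≤ (∏ b, ∏ i, C b i) *
      Real.exp (N * fV a + ℓ - κ0 * Q / N) := by
    have e1 : (∏ b, ∏ i, C b i) * Real.exp (N * fV a + ℓ - κ0 * Q / N) =
        ∏ b, ∏ i, (C b i * Real.exp (N * hh (a b i) -
          (lt (a b i) * ((a' b i : ℝ) - N * a b i) + lc (a b i) * (((dn (a' b) i : ℤ) : ℝ) - N / 2)) -
          κ0 * (if a b i ≠ 0 ∧ a b i ≠ 1 / 2 then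
            ((a' b i : ℝ) - N * a b i) ^ 2 + (((dn (a' b) i : ℤ) : ℝ) - N / 2) ^ 2 else 0) / N)) := by
      simp_rw [Finset.prod_mul_distrib]
      congr 1
      simp_rw [← Real.exp_sum]
      congr 1
      simp_rw [Finset.sum_sub_distrib]
      rw [lin hCR hG hT ha', ← hℓ]
      unfold fV
      rw [hQ]
      simp_rw [Finset.mul_sum, Finset.sum_div]
      ring
    rw [e1]
    refine Finset.prod_le_prod (fun b _ => ?_) fun b _ => ?_
    · refine mul_nonneg (Finset.prod_nonneg fun i _ => ?_) (Finset.prod_nonneg fun i _ => bq_nonneg hN _ _)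
      split_ifs <;> positivity
    · rw [← Finset.prod_mul_distrib]
      refine Finset.prod_le_prod (fun i _ => ?_) fun i _ => ?_
      · refine mul_nonneg ?_ (bq_nonneg hN _ _)
        split_ifs <;> positivity
      · have hne : a b i = 1 / 2 → a' b i = dn (a' b) i := fun h => by
          have h3 := belt_gen (hTp.nn b) (hTp.h1 b) (hTp.h2 b) (hTp.s1 b) (hTp.s2 b) (hTp.s3 b)
            (hTp.s4 b) h
          exact belt_half (hTp.nn b) (hTp.h1 b) (hTp.h2 b) h h3.1 (hz b)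
        refine (hb b i N (dn (a' b) i) (a' b i) hN (hz b i) hne).trans ?_
        refine mul_le_mul_of_nonneg_left (Real.exp_le_exp.2 ?_) (hC b i)
        have h4 : κ0 * (if a b i ≠ 0 ∧ a b i ≠ 1 / 2 then
            ((a' b i : ℝ) - N * a b i) ^ 2 + (((dn (a' b) i : ℤ) : ℝ) - N / 2) ^ 2 else 0) / N ≤
            κ b i * (if a b i ≠ 0 ∧ a b i ≠ 1 / 2 then
            ((a' b i : ℝ) - N * a b i) ^ 2 + (((dn (a' b) i : ℤ) : ℝ) - N / 2) ^ 2 else 0) / N := by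
          refine div_le_div_of_nonneg_right (mul_le_mul_of_nonneg_right (hκle b i) ?_) hN0.le
          split_ifs <;> positivity
        linarith
  refine (mul_le_mul_of_nonneg_right hprod (Real.exp_pos _).le).trans ?_
  rw [mul_assoc, ← Real.exp_add, mul_assoc, ← Real.exp_add]
  refine mul_le_mul_of_nonneg_left (Real.exp_le_exp.2 ?_) hCn
  -- the quadratic forms
  have hSQ : ∑ b, ∑ i, ((a' b i : ℝ) - N * a b i) ^ 2 ≤ 12 * Q + 12 * c := by
    calc ∑ b, ∑ i, ((a' b i : ℝ) - N * a b i) ^ 2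
        ≤ ∑ b : Fin c, ∑ i : Fin 6, (2 * (∑ j, if a b j ≠ 0 ∧ a b j ≠ 1 / 2 then
          ((a' b j : ℝ) - N * a b j) ^ 2 + (((dn (a' b) j : ℤ) : ℝ) - N / 2) ^ 2 else 0) + 2) :=
          Finset.sum_le_sum fun b _ => Finset.sum_le_sum fun i _ =>
            belt_quad (hTp.nn b) (hTp.h1 b) (hTp.h2 b) (hTp.s1 b) (hTp.s2 b) (hTp.s3 b) (hTp.s4 b)
              (hz b) (hsum b) i
      _ = 12 * Q + 12 * c := by
        simp only [Finset.sum_const, Finset.card_univ, Fintype.card_fin, nsmul_eq_mul]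
        rw [← Finset.mul_sum, Finset.sum_add_distrib, ← Finset.mul_sum, ← hQ]
        simp only [Finset.sum_const, Finset.card_univ, Fintype.card_fin, nsmul_eq_mul]
        push_cast
        ring
  have h6 : κ0 / 12 * (∑ b, ∑ i, ((a' b i : ℝ) - N * a b i) ^ 2) / N ≤ κ0 * Q / N + κ0 * c := by
    rw [div_le_iff₀ hN0]
    have e1 : (κ0 * Q / N + κ0 * c) * N = κ0 * Q + κ0 * c * N := by
      field_simp
    rw [e1]
    have e2 : κ0 / 12 * (∑ b, ∑ i, ((a' b i : ℝ) - N * a b i) ^ 2) ≤ κ0 / 12 * (12 * Q + 12 * c) :=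
      mul_le_mul_of_nonneg_left hSQ (by positivity)
    have e3 : κ0 * (c : ℝ) * 1 ≤ κ0 * c * N := mul_le_mul_of_nonneg_left hN1 (by positivity)
    linarith
  have e4 : -(κ0 / 12) * ((∑ b, ∑ i, ((a' b i : ℝ) - N * a b i) ^ 2) / N) =
      -(κ0 / 12 * (∑ b, ∑ i, ((a' b i : ℝ) - N * a b i) ^ 2) / N) := by ring
  rw [e4]
  linarith

end Pool.Agent.Q280.FAL
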