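import Pool.Agent.Q280.FAL.NB

/-!
# FAL-NL: limits of the terms (helper280)
-/

set_option autoImplicit false

namespace Pool.Agent.Q280.FAL

open Finset Filter Topology MeasureTheory
open Pool.Agent.Q191.TW (cs)
open Pool.Agent.W719.BS (D LL)
open Pool.Agent.Q99.FAL

/-- a sequence of integers near `N / 2` is in the range -/
lemma ev_range {n : ℕ → ℤ} {Y : ℝ}
    (h : Tendsto (fun N : ℕ => ((n N : ℝ) - N / 2) / √N) atTop (𝓝 Y)) :
    ∀ᶠ N : ℕ in atTop, 0 ≤ n N ∧ n N ≤ (N : ℤ) - 1 := by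
  have h1 : ∀ᶠ N : ℕ in atTop, |((n N : ℝ) - N / 2) / √N| < |Y| + 1 :=
    (h.abs).eventually_lt_const (by linarith)
  have h2 : ∀ᶠ N : ℕ in atTop, (4 * (|Y| + 1) + 2) ^ 2 ≤ (N : ℝ) :=
    tendsto_natCast_atTop_atTop.eventually_ge_atTop _
  filter_upwards [h1, h2] with N h1 h2
  have hY := abs_nonneg Y
  have hN0 : (0 : ℝ) < N := lt_of_lt_of_le (by positivity) h2
  have hs0 : 0 < √(N : ℝ) := Real.sqrt_pos.2 hN0
  have hs1 : 4 * (|Y| + 1) + 2 ≤ √(N : ℝ) := Real.le_sqrt_of_sq_le h2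
  have hsN : √(N : ℝ) * √(N : ℝ) = N := Real.mul_self_sqrt hN0.le
  rw [abs_div, abs_of_pos hs0, div_lt_iff₀ hs0, abs_lt] at h1
  have h3 : (|Y| + 1) * √(N : ℝ) + 1 ≤ N / 2 := by nlinarith
  constructor
  · have : (0 : ℝ) ≤ n N := by linarith
    exact_mod_cast this
  · have : (n N : ℝ) ≤ (N : ℝ) - 1 := by linarith
    exact_mod_cast this

open Classical in
lemma one_angle_lim (h2 : S_T2) {α : ℝ} (h0 : 0 ≤ α) (hh2 : α ≤ 1 / 2) : ∃ g : ℝ, 0 < g ∧
    ∀ (n k : ℕ → ℤ) (X Y : ℝ), (α = 0 → ∀ N, k N = 0) → (α = 1 / 2 → ∀ N, k N = n N) →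
    Tendsto (fun N : ℕ => ((k N : ℝ) - N * α) / √N) atTop (𝓝 X) →
    Tendsto (fun N : ℕ => ((n N : ℝ) - N / 2) / √N) atTop (𝓝 Y) →
    Tendsto (fun N : ℕ => (if α ≠ 0 ∧ α ≠ 1 / 2 then √(N : ℝ) else 1) * bq N (n N) (k N) *
      Real.exp (-(N * hh α) + (lt α * (k N - N * α) + lc α * (n N - N / 2)))) atTop
      (𝓝 (g * Real.exp (-(Real.pi / 2 * (Real.cot (Real.pi * α) * X ^ 2 +
        Real.tan (Real.pi * α) * (Y - X) ^ 2))))) := by
  by_cases hg : α ≠ 0 ∧ α ≠ 1 / 2
  · have hα0 : 0 < α := lt_of_le_of_ne h0 (Ne.symm hg.1)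
    have hα1 : α < 1 / 2 := lt_of_le_of_ne hh2 hg.2
    refine ⟨1 / √(Real.sin (2 * Real.pi * α)), ?_, fun n k X Y _ _ hk hn => ?_⟩
    · have : 0 < Real.sin (2 * Real.pi * α) := by
        refine Real.sin_pos_of_pos_of_lt_pi (by have := Real.pi_pos; positivity) ?_
        nlinarith [Real.pi_pos]
      positivity
    · have h3 := h2 α hα0 hα1 n k X Y hk hn
      rw [neg_mul] at h3
      simp only [if_pos hg]
      refine h3.congr fun N => ?_
      unfold lt lc
      rw [add_assoc]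
  · refine ⟨1, one_pos, fun n k X Y hk0 hk1 hk hn => ?_⟩
    simp only [if_neg hg]
    have hev := ev_range hn
    rcases not_and_or.1 hg with h | h
    · rw [not_not] at h
      subst h
      have e1 : Real.exp (-(Real.pi / 2 * (Real.cot (Real.pi * 0) * X ^ 2 +
          Real.tan (Real.pi * 0) * (Y - X) ^ 2))) = 1 := by
        simp [Real.cot_eq_cos_div_sin]
      rw [e1, one_mul]
      refine tendsto_const_nhds.congr' ?_
      filter_upwards [hev] with N hN
      rw [hk0 rfl N, bq_left hN.1 hN.2, lt_zero, lc_zero, hh_zero]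
      simp
    · rw [not_not] at h
      subst h
      have e1 : Real.exp (-(Real.pi / 2 * (Real.cot (Real.pi * (1 / 2)) * X ^ 2 +
          Real.tan (Real.pi * (1 / 2)) * (Y - X) ^ 2))) = 1 := by
        rw [show Real.pi * (1 / 2) = Real.pi / 2 by ring, Real.tan_pi_div_two,
          Real.cot_eq_cos_div_sin, Real.cos_pi_div_two]
        simp
      rw [e1, one_mul]
      refine tendsto_const_nhds.congr' ?_
      filter_upwards [hev] with N hN
      rw [hk1 rfl N, bq_right hN.1 hN.2, lt_half, lc_half, hh_half]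
      simp

variable {c : ℕ}

/-- a term as a product of phases and a real number -/
lemma tN_eq (w : Fin c → ℝ) (N : ℕ) (a' : Fin c → Fin 6 → ℤ) :
    tN w N a' = (∏ b, cs N (w b * ((n1 (a' b) - n2 (a' b) : ℤ) : ℝ) ^ 2 / 4)) *
      ((∏ b, ∏ i, bq N (dn (a' b) i) (a' b i) : ℝ) : ℂ) := by
  unfold tN
  rw [Complex.ofReal_prod, ← Finset.prod_mul_distrib]
  refine Finset.prod_congr rfl fun b _ => ?_
  unfold wt6
  congr 2
  rw [Fin.prod_univ_six]
  simp only [dn, Fin.isValue, true_or, if_true, or_true]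
  rw [if_neg (by decide), if_neg (by decide), if_neg (by decide)]
  ring

/-- limits of the sums of the angles -/
lemma lim_dn {a x : Fin 6 → ℝ} {a' : ℕ → Fin 6 → ℤ} (h1 : n1 a = 1 / 2) (h2 : n2 a = 1 / 2)
    (h : ∀ i, Tendsto (fun N : ℕ => ((a' N i : ℝ) - N * a i) / √N) atTop (𝓝 (x i))) (i : Fin 6) :
    Tendsto (fun N : ℕ => (((dn (a' N) i : ℤ) : ℝ) - N / 2) / √N) atTop (𝓝 (dn x i)) := by
  have key : ∀ N : ℕ, (((dn (a' N) i : ℤ) : ℝ) - N / 2) / √N =
      dn (fun j => ((a' N j : ℝ) - N * a j) / √N) i := by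
    intro N
    have e1 : ((N : ℝ) / 2) = N * dn a i := by rw [dn_half h1 h2]; ring
    rw [dn_cast, e1]
    unfold dn n1 n2
    split_ifs <;> ring
  simp only [key]
  unfold dn n1 n2
  split_ifs
  · exact ((h 3).add (h 4)).add (h 5)
  · exact ((h 0).add (h 1)).add (h 2)

/-- **FAL-NL** -/
theorem task_NL : S_NL := by
  classical
  intro hT2 hCR c X p a w hG hT
  have hTp := tp_of hG hT
  have hle : ∀ b i, a b i ≤ 1 / 2 := by
    intro b i
    have h1 := hTp.h1 b
    have h2 := hTp.h2 b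
    unfold n1 at h1
    unfold n2 at h2
    have e := hTp.nn b
    have e0 := e 0
    have e1 := e 1
    have e2 := e 2
    have e3 := e 3
    have e4 := e 4
    have e5 := e 5
    fin_cases i
    · show a b 0 ≤ 1 / 2
      linarith
    · show a b 1 ≤ 1 / 2
      linarith
    · show a b 2 ≤ 1 / 2
      linarith
    · show a b 3 ≤ 1 / 2
      linarith
    · show a b 4 ≤ 1 / 2
      linarith
    · show a b 5 ≤ 1 / 2
      linarith
  choose g hg hb using fun (b : Fin c) (i : Fin 6) => one_angle_lim hT2 (hTp.nn b i) (hle b i)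
  set ℓ : ℝ := ∑ b, ∑ i, (lt (a b i) * a b i + lc (a b i) * (1 / 2)) with hℓ
  refine ⟨(∏ b, ∏ i, g b i) * Real.exp ℓ, mul_pos (Finset.prod_pos fun b _ => Finset.prod_pos
    fun i _ => hg b i) (Real.exp_pos _), fun a' x ha' hx => ?_⟩
  have hlimdn : ∀ b i, Tendsto (fun N : ℕ => (((dn (a' N b) i : ℤ) : ℝ) - N / 2) / √N) atTop
      (𝓝 (dn (x b) i)) := fun b i =>
    lim_dn (hTp.h1 b) (hTp.h2 b) (a' := fun N => a' N b) (hx b) i
  -- the real factor
  have hreal : Tendsto (fun N : ℕ => (∏ b, ∏ i, ((if a b i ≠ 0 ∧ a b i ≠ 1 / 2 then √(N : ℝ) else 1) *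
      bq N (dn (a' N b) i) (a' N b i) * Real.exp (-(N * hh (a b i)) +
        (lt (a b i) * ((a' N b i : ℝ) - N * a b i) + lc (a b i) * (((dn (a' N b) i : ℤ) : ℝ) - N / 2))))))
      atTop (𝓝 (∏ b, ∏ i, (g b i * Real.exp (-(Real.pi / 2 * (Real.cot (Real.pi * a b i) * x b i ^ 2 +
        Real.tan (Real.pi * a b i) * (dn (x b) i - x b i) ^ 2)))))) := by
    refine tendsto_finsetProd _ fun b _ => tendsto_finsetProd _ fun i _ => ?_
    refine hb b i (fun N => dn (a' N b) i) (fun N => a' N b i) (x b i) (dn (x b) i) (fun h N => ?_)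
      (fun h N => ?_) (hx b i) (hlimdn b i)
    · exact zer_of hG hT (ha' N) b i h
    · have h3 := belt_gen (hTp.nn b) (hTp.h1 b) (hTp.h2 b) (hTp.s1 b) (hTp.s2 b) (hTp.s3 b)
        (hTp.s4 b) h
      exact belt_half (hTp.nn b) (hTp.h1 b) (hTp.h2 b) h h3.1 (zer_of hG hT (ha' N) b)
  have hreal2 : ∀ N : ℕ, √(N : ℝ) ^ nV p * Real.exp (-(N * fV a)) *
      ∏ b, ∏ i, bq N (dn (a' N b) i) (a' N b i) =
      (∏ b, ∏ i, ((if a b i ≠ 0 ∧ a b i ≠ 1 / 2 then √(N : ℝ) else 1) *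
      bq N (dn (a' N b) i) (a' N b i) * Real.exp (-(N * hh (a b i)) +
        (lt (a b i) * ((a' N b i : ℝ) - N * a b i) +
          lc (a b i) * (((dn (a' N b) i : ℤ) : ℝ) - N / 2))))) * Real.exp ℓ := by
    intro N
    rw [pow_nV hTp]
    simp_rw [Finset.prod_mul_distrib]
    have e1 : (∏ b, ∏ i, Real.exp (-(N * hh (a b i)) +
        (lt (a b i) * ((a' N b i : ℝ) - N * a b i) +
          lc (a b i) * (((dn (a' N b) i : ℤ) : ℝ) - N / 2)))) * Real.exp ℓ =
        Real.exp (-(N * fV a)) := by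
      simp_rw [← Real.exp_sum]
      rw [← Real.exp_add]
      congr 1
      have e2 : ∑ b, ∑ i, (-(N * hh (a b i)) + (lt (a b i) * ((a' N b i : ℝ) - N * a b i) +
          lc (a b i) * (((dn (a' N b) i : ℤ) : ℝ) - N / 2))) = -(N * fV a) +
          ∑ b, ∑ i, (lt (a b i) * ((a' N b i : ℝ) - N * a b i) +
          lc (a b i) * (((dn (a' N b) i : ℤ) : ℝ) - N / 2)) := by
        unfold fV
        rw [Finset.mul_sum, ← Finset.sum_neg_distrib, ← Finset.sum_add_distrib]
        refine Finset.sum_congr rfl fun b _ => ?_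
        rw [Finset.mul_sum, ← Finset.sum_neg_distrib, ← Finset.sum_add_distrib]
      rw [e2, lin hCR hG hT (ha' N), ← hℓ]
      ring
    rw [← e1]
    ring
  -- the phases
  have hph : Tendsto (fun N : ℕ => ∏ b, cs N (w b * ((n1 (a' N b) - n2 (a' N b) : ℤ) : ℝ) ^ 2 / 4)) atTop
      (𝓝 (∏ b, Complex.exp (((Real.pi * w b / 4 * (n1 (x b) - n2 (x b)) ^ 2 : ℝ) : ℂ) * Complex.I))) := by
    refine tendsto_finsetProd _ fun b _ => ?_
    have e1 := hlimdn b 1
    have e2 := hlimdn b 0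
    have d1 : ∀ (R : Type) [AddCommMonoid R] (y : Fin 6 → R), dn y 1 = n1 y := fun R _ y => by
      unfold dn
      rw [if_neg (by decide)]
    have d0 : ∀ (R : Type) [AddCommMonoid R] (y : Fin 6 → R), dn y 0 = n2 y := fun R _ y => by
      unfold dn
      rw [if_pos (Or.inl rfl)]
    rw [d1] at e1
    rw [d0] at e2
    simp only [d1] at e1
    simp only [d0] at e2
    have e3 := ((e1.sub e2).pow 2).const_mul (Real.pi * w b / 4)
    have e4 : Tendsto (fun N : ℕ => Real.pi * (w b * ((n1 (a' N b) - n2 (a' N b) : ℤ) : ℝ) ^ 2 / 4) / N)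
        atTop (𝓝 (Real.pi * w b / 4 * (n1 (x b) - n2 (x b)) ^ 2)) := by
      refine e3.congr' ?_
      filter_upwards [eventually_gt_atTop 0] with N hN
      have hN0 : (0 : ℝ) < N := by exact_mod_cast hN
      have hs0 : √(N : ℝ) ≠ 0 := (Real.sqrt_pos.2 hN0).ne'
      have hsN : √(N : ℝ) ^ 2 = N := Real.sq_sqrt hN0.le
      push_cast
      rw [← sub_div, div_pow, hsN]
      field_simp
      ring
    unfold cs
    exact ((Complex.continuous_ofReal.tendsto _).comp e4).mul_const Complex.I |>.cexp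
  have hfin := hph.mul ((Complex.continuous_ofReal.tendsto _).comp (hreal.mul_const (Real.exp ℓ)))
  convert! hfin using 1
  · funext N
    rw [tN_eq]
    simp only [Function.comp_apply]
    rw [← hreal2 N]
    push_cast
    ring
  · congr 1
    unfold gau
    rw [Complex.exp_add, ← Complex.exp_sum]
    simp_rw [Finset.prod_mul_distrib]
    simp_rw [← Real.exp_sum, Finset.sum_neg_distrib]
    rw [← Complex.ofReal_exp]
    push_cast
    rw [Finset.sum_mul]
    ring

end Pool.Agent.Q280.FAL
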